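import Mathlib
import Pool.Agent.R29.FREx37B

/-!
# Proper fractional revival with a support eigenvalue of degree at least 3 (MP_884c22_co, Q1)
-/

set_option autoImplicit false

open Matrix Finset

namespace Pool.Agent.Results.MP_884c22_co.DegreeAtLeastThree

open Pool.Agent.R29.FR Pool.Agent.R29.FRG Pool.Agent.R29.FRM Pool.Agent.R29.FREx

/-- Proper fractional revival on `{a, b}`: `a ≠ b` and there are a time `τ > 0` and non-zero
complex numbers `α, β` with `exp (i τ A) e_a = α e_a + β e_b`. -/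
def ProperFractionalRevival {V : Type} [Fintype V] [DecidableEq V] (X : SimpleGraph V)
    [DecidableRel X.Adj] (a b : V) : Prop :=
  a ≠ b ∧ ∃ (τ : ℝ) (α β : ℂ), 0 < τ ∧ α ≠ 0 ∧ β ≠ 0 ∧
    NormedSpace.exp (((τ : ℂ) * Complex.I) • X.adjMatrix ℂ) *ᵥ Pi.single a 1
      = α • Pi.single a (1 : ℂ) + β • Pi.single b (1 : ℂ)

/-- The eigenvalue support of the vertex `a`: the numbers `θ` such that the orthogonal projection
of `e_a` onto the eigenspace of the adjacency matrix of `X` for `θ` is not zero. -/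
def eigenvalueSupport {V : Type} [Fintype V] [DecidableEq V] (X : SimpleGraph V)
    [DecidableRel X.Adj] (a : V) : Set ℝ :=
  {θ | (Module.End.eigenspace (Matrix.toEuclideanLin (X.adjMatrix ℝ)) θ).starProjection
    (EuclideanSpace.single a 1) ≠ 0}

/-- the eigenvalue `θ = 36 + 4√37 + √5536` -/
noncomputable def th : ℝ := 40 + 24 * r1 + s37

theorem u1_eig : (d37.graph.adjMatrix ℝ) *ᵥ (u1 r1) = th • u1 r1 := (D37 r1 hr1).e1

theorem u1_ne : u1 r1 va ≠ 0 := by
  have h1 : u1 r1 va = (1 / 2) * ((1 / s37 ^ 2) * (3584 + 1728 * r1) + (1 / s37) * (-(40 + 24 * r1))) := by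
    simp only [u1, v1_37, v2_37, Data.lift, pg, Pi.add_apply, Pi.smul_apply, smul_eq_mul,
      Sum.elim_inl]
    norm_num
  rw [h1]
  have hs := s37_pos
  have hs2 := hs37
  have hr := hr1
  have h3 := six_lt
  have hpos : 0 < r1 := by unfold r1; linarith
  intro h0
  field_simp at h0
  have h4 : 3584 + 1728 * r1 = s37 * (40 + 24 * r1) := by linarith
  have h5 : (3584 + 1728 * r1) ^ 2 = 5536 * (40 + 24 * r1) ^ 2 := by rw [h4, mul_pow, hs2]
  nlinarith

theorem in_support : th ∈ eigenvalueSupport d37.graph va := by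
  intro h0
  rw [Submodule.starProjection_apply_eq_zero_iff, Submodule.mem_orthogonal] at h0
  have h1 := h0 (WithLp.toLp 2 (u1 r1)) (mem_eigenspace _ _ _ u1_eig)
  rw [EuclideanSpace.inner_eq_star_dotProduct] at h1
  simp only [star_trivial] at h1
  have h2 : (WithLp.ofLp (EuclideanSpace.single va (1 : ℝ)) : d37.V → ℝ) = Pi.single va 1 := rfl
  rw [h2, single_one_dotProduct] at h1
  exact u1_ne h1

/-- linear independence of `1, √37` over the rationals -/
theorem indep37 (x y : ℚ) (h : (x : ℝ) + y * √37 = 0) : x = 0 ∧ y = 0 := by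
  have hirr : Irrational (√37 : ℝ) := by
    have : Nat.Prime 37 := by norm_num
    exact_mod_cast this.irrational_sqrt
  by_cases hy : y = 0
  · subst hy
    simp only [Rat.cast_zero, zero_mul, add_zero, Rat.cast_eq_zero] at h
    exact ⟨h, rfl⟩
  · exfalso
    apply hirr
    refine ⟨-x / y, ?_⟩
    have hy' : (y : ℝ) ≠ 0 := by exact_mod_cast hy
    push_cast
    field_simp
    linarith

theorem no_quadratic (u v : ℚ) : th ^ 2 + u * th + v ≠ 0 := by
  intro h
  have hth : th = 36 + 4 * √37 + s37 := by unfold th; rw [p1_eq]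
  have h37 := sq37
  have hs2 := hs37
  have hs := s37_pos
  -- (A + B r) + (C + D r) s = 0 with r = √37
  set A : ℚ := 36 ^ 2 + 16 * 37 + 5536 + 36 * u + v with hA
  set B : ℚ := 288 + 4 * u with hB
  set C : ℚ := 72 + u with hC
  have h1 : ((A : ℝ) + B * √37) + ((C : ℝ) + 8 * √37) * s37 = 0 := by
    rw [hth] at h
    rw [hA, hB, hC]
    push_cast
    linear_combination h - 16 * h37 - hs2
  have h2 : ((A : ℝ) + B * √37) ^ 2 = 5536 * ((C : ℝ) + 8 * √37) ^ 2 := by
    have h3 : (A : ℝ) + B * √37 = -(((C : ℝ) + 8 * √37) * s37) := by linarith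
    rw [h3, neg_sq, mul_pow, hs2]; ring
  have h3 := indep37 (A ^ 2 + 37 * B ^ 2 - 5536 * (C ^ 2 + 64 * 37)) (2 * A * B - 5536 * 16 * C) (by
    push_cast
    linear_combination h2 - ((B : ℝ) ^ 2 - 5536 * 64) * h37)
  obtain ⟨h4, h5⟩ := h3
  -- B = 4 C
  have h6 : B = 4 * C := by rw [hB, hC]; ring
  rw [h6] at h5 h4
  have h7 : C * (A - 11072) = 0 := by linear_combination h5 / 8
  rcases mul_eq_zero.1 h7 with h8 | h8
  · rw [h8] at h4
    have h9 : A ^ 2 = ((13109248 : ℕ) : ℚ) := by push_cast; linear_combination h4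
    have h10 : IsSquare ((13109248 : ℕ) : ℚ) := ⟨A, by rw [← h9, sq]⟩
    rw [Rat.isSquare_natCast_iff] at h10
    obtain ⟨k, hk⟩ := h10
    have h11 : k ≤ 3620 ∨ 3621 ≤ k := by omega
    rcases h11 with h11 | h11
    · nlinarith
    · nlinarith
  · have h9 : A = 11072 := by linarith
    rw [h9] at h4
    have h10 : (C / 1) ^ 2 = ((22144 : ℕ) : ℚ) := by push_cast; linear_combination -h4 / 4944
    have h11 : IsSquare ((22144 : ℕ) : ℚ) := ⟨C / 1, by rw [← h10, sq]⟩
    rw [Rat.isSquare_natCast_iff] at h11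
    obtain ⟨k, hk⟩ := h11
    have h12 : k ≤ 148 ∨ 149 ≤ k := by omega
    rcases h12 with h12 | h12
    · nlinarith
    · nlinarith

theorem int_aux (x : ℝ) (n : ℕ) (hx : x ^ 2 = n) : IsIntegral ℚ x := by
  apply IsIntegral.of_pow (n := 2) (by norm_num)
  rw [hx]
  have : ((n : ℕ) : ℝ) = algebraMap ℚ ℝ (n : ℚ) := by simp
  rw [this]
  exact isIntegral_algebraMap

theorem th_integral : IsIntegral ℚ th := by
  have hth : th = 36 + 4 * √37 + s37 := by unfold th; rw [p1_eq]
  rw [hth]
  have h1 : IsIntegral ℚ (√37 : ℝ) := int_aux _ 37 (by rw [sq37]; norm_num)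
  have h2 : IsIntegral ℚ s37 := int_aux _ 5536 (by rw [hs37]; norm_num)
  have h3 : IsIntegral ℚ (36 : ℝ) := by
    have : (36 : ℝ) = algebraMap ℚ ℝ 36 := by simp
    rw [this]; exact isIntegral_algebraMap
  have h4 : IsIntegral ℚ (4 : ℝ) := by
    have : (4 : ℝ) = algebraMap ℚ ℝ 4 := by simp
    rw [this]; exact isIntegral_algebraMap
  exact (h3.add (h4.mul h1)).add h2

theorem degree_ge : 3 ≤ (minpoly ℚ th).natDegree := by
  by_contra hlt
  push Not at hlt
  have hpos := minpoly.natDegree_pos th_integral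
  have hmon := minpoly.monic th_integral
  have hroot := minpoly.aeval ℚ th
  rw [hmon.as_sum] at hroot
  obtain h1 | h1 : (minpoly ℚ th).natDegree = 1 ∨ (minpoly ℚ th).natDegree = 2 := by omega
  · rw [h1] at hroot
    simp only [map_add, map_pow, Polynomial.aeval_X, Finset.sum_range_one, pow_zero, mul_one,
      Polynomial.aeval_C, pow_one] at hroot
    apply no_quadratic ((minpoly ℚ th).coeff 0) 0
    have h2 : th + ((minpoly ℚ th).coeff 0 : ℝ) = 0 := hroot
    push_cast
    linear_combination th * h2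
  · rw [h1] at hroot
    simp only [map_add, map_pow, Polynomial.aeval_X, Finset.sum_range_succ, Finset.sum_range_zero,
      pow_zero, mul_one, Polynomial.aeval_C, pow_one, map_mul, zero_add] at hroot
    apply no_quadratic ((minpoly ℚ th).coeff 1) ((minpoly ℚ th).coeff 0)
    have h2 : th ^ 2 + (((minpoly ℚ th).coeff 0 : ℝ) + ((minpoly ℚ th).coeff 1 : ℝ) * th) = 0 := hroot
    linear_combination h2

/-- There are a finite simple graph `X` and vertices `a, b` with proper fractional revival on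
`{a, b}` such that the eigenvalue support of `a` contains an algebraic number of degree at least
three over the rationals. -/
theorem result : ∃ (V : Type) (_ : Fintype V) (_ : DecidableEq V) (X : SimpleGraph V)
    (_ : DecidableRel X.Adj) (a b : V), ProperFractionalRevival X a b ∧
      ∃ θ ∈ eigenvalueSupport X a, IsIntegral ℚ θ ∧ 3 ≤ (minpoly ℚ θ).natDegree := by
  refine ⟨d37.V, inferInstance, inferInstance, d37.graph, inferInstance, va, vb, ⟨by simp, ?_⟩,
    th, in_support, ?_, degree_ge⟩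
  · obtain ⟨α, β, hα, hβ, h⟩ := revival37
    exact ⟨t37, α, β, t37_pos, hα, hβ, h⟩
  · exact th_integral

end Pool.Agent.Results.MP_884c22_co.DegreeAtLeastThree
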